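import Mathlib

/-!
# Simple paths in weighted digraphs

`Pth w S a b x`: there is a simple directed path from `a` to `b`, all of whose vertices are in `S`,
all of whose arcs have positive weight, and whose total weight is `x`.
-/

set_option autoImplicit false

namespace Pool.Agent.H90

variable {V : Type} [DecidableEq V]

/-- There is a simple path from `a` to `b` inside `S` with positive arcs and total weight `x`. -/
inductive Pth (w : V → V → ℝ) : Finset V → V → V → ℝ → Prop
  | nil (S : Finset V) (a : V) (ha : a ∈ S) : Pth w S a a 0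
  | cons (S : Finset V) (a b c : V) (x : ℝ) (ha : a ∈ S) (hab : 0 < w a b)
      (h : Pth w (S.erase a) b c x) : Pth w S a c (w a b + x)

variable {w : V → V → ℝ}

theorem Pth.mono {S S' : Finset V} {a b : V} {x : ℝ} (h : Pth w S a b x) (hS : S ⊆ S') :
    Pth w S' a b x := by
  induction h generalizing S' with
  | nil S a ha => exact Pth.nil _ _ (hS ha)
  | cons S a b c x ha hab h ih =>
    exact Pth.cons _ _ _ _ _ (hS ha) hab (ih (Finset.erase_subset_erase _ hS))

theorem Pth.start_mem {S : Finset V} {a b : V} {x : ℝ} (h : Pth w S a b x) : a ∈ S := by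
  cases h with
  | nil _ _ ha => exact ha
  | cons _ _ _ _ _ ha _ _ => exact ha

theorem Pth.end_mem {S : Finset V} {a b : V} {x : ℝ} (h : Pth w S a b x) : b ∈ S := by
  induction h with
  | nil S a ha => exact ha
  | cons S a b c x ha hab h ih => exact Finset.mem_of_mem_erase ih

theorem Pth.nonneg {S : Finset V} {a b : V} {x : ℝ} (h : Pth w S a b x) : 0 ≤ x := by
  induction h with
  | nil S a ha => exact le_refl _
  | cons S a b c x ha hab h ih => linarith

/-- Concatenation of two paths in disjoint vertex sets. -/
theorem Pth.append {S S' : Finset V} {a b c d : V} {x y : ℝ} (h : Pth w S a b x)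
    (hbc : 0 < w b c) (h' : Pth w S' c d y) (hd : Disjoint S S') :
    Pth w (S ∪ S') a d (x + (w b c + y)) := by
  induction h with
  | nil S a ha =>
    have h1 : Pth w ((S ∪ S').erase a) c d y := by
      refine h'.mono ?_
      intro v hv
      refine Finset.mem_erase.2 ⟨?_, Finset.mem_union_right _ hv⟩
      rintro rfl
      exact (Finset.disjoint_left.1 hd ha) hv
    have h2 := Pth.cons (w := w) (S ∪ S') a c d y (Finset.mem_union_left _ ha) hbc h1
    rw [zero_add]
    exact h2
  | cons S a e b x ha hae h ih =>
    have hd' : Disjoint (S.erase a) S' :=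
      Disjoint.mono_left (Finset.erase_subset _ _) hd
    have h1 := ih hbc hd'
    have h2 : Pth w ((S ∪ S').erase a) e d (x + (w b c + y)) := by
      refine h1.mono ?_
      intro v hv
      rcases Finset.mem_union.1 hv with hv1 | hv1
      · exact Finset.mem_erase.2 ⟨Finset.ne_of_mem_erase hv1,
          Finset.mem_union_left _ (Finset.mem_of_mem_erase hv1)⟩
      · refine Finset.mem_erase.2 ⟨fun hva => ?_, Finset.mem_union_right _ hv1⟩
        exact (Finset.disjoint_left.1 hd ha) (hva ▸ hv1)
    have h3 := Pth.cons (w := w) (S ∪ S') a e d _ (Finset.mem_union_left _ ha) hae h2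
    rw [add_assoc]
    exact h3

/-- A path as a sequence of vertices. -/
theorem Pth.exists_seq {S : Finset V} {a b : V} {x : ℝ} (h : Pth w S a b x) :
    ∃ (n : ℕ) (g : ℕ → V), g 0 = a ∧ g n = b ∧ (∀ i ≤ n, g i ∈ S) ∧
      (∀ i ≤ n, ∀ j ≤ n, g i = g j → i = j) ∧ (∀ i < n, 0 < w (g i) (g (i + 1))) ∧
      ∑ i ∈ Finset.range n, w (g i) (g (i + 1)) = x := by
  induction h with
  | nil S a ha =>
    refine ⟨0, fun _ => a, rfl, rfl, fun i _ => ha, fun i hi j hj _ => by omega,
      fun i hi => absurd hi (Nat.not_lt_zero _), by simp⟩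
  | cons S a b c x ha hab h ih =>
    obtain ⟨n, g, h0, hn, hS, hinj, hpos, hsum⟩ := ih
    have hga : ∀ i ≤ n, g i ≠ a := fun i hi => Finset.ne_of_mem_erase (hS i hi)
    refine ⟨n + 1, fun i => Nat.casesOn i a g, rfl, hn, ?_, ?_, ?_, ?_⟩
    · intro i hi
      cases i with
      | zero => exact ha
      | succ i => exact Finset.mem_of_mem_erase (hS i (by omega))
    · intro i hi j hj hij
      cases i with
      | zero =>
        cases j with
        | zero => rfl
        | succ j => exact absurd hij.symm (hga j (by omega))
      | succ i =>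
        cases j with
        | zero => exact absurd hij (hga i (by omega))
        | succ j => rw [hinj i (by omega) j (by omega) hij]
    · intro i hi
      cases i with
      | zero =>
        change 0 < w a (g 0)
        rw [h0]; exact hab
      | succ i => exact hpos i (by omega)
    · rw [Finset.sum_range_succ']
      change (∑ i ∈ Finset.range n, w (g i) (g (i + 1))) + w a (g 0) = w a b + x
      rw [hsum, h0]; ring

/-- Closing a path to a cycle. -/
theorem Pth.close {S : Finset V} {a b : V} {x : ℝ} (hdiag : ∀ v, w v v = 0)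
    (h : Pth w S a b x) (hba : 0 < w b a) :
    ∃ (k : ℕ) (f : Fin (k + 2) → V), Function.Injective f ∧
      (∀ i, 0 < w (f i) (f (finRotate (k + 2) i))) ∧
      x + w b a ≤ ∑ i, w (f i) (f (finRotate (k + 2) i)) := by
  obtain ⟨n, g, h0, hn, hS, hinj, hpos, hsum⟩ := h.exists_seq
  cases n with
  | zero =>
    exfalso
    have : a = b := by rw [← h0, hn]
    subst this
    rw [hdiag] at hba
    exact lt_irrefl _ hba
  | succ k =>
    have hrot : ∀ i : Fin (k + 1), finRotate (k + 2) i.castSucc = i.succ := by
      intro i
      apply Fin.ext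
      have hne : i.castSucc ≠ Fin.last (k + 1) := (Fin.castSucc_lt_last i).ne
      rw [coe_finRotate_of_ne_last hne]
      simp
    have hlast : finRotate (k + 2) (Fin.last (k + 1)) = 0 := finRotate_last
    refine ⟨k, fun i => g i.val, ?_, ?_, ?_⟩
    · intro i j hij
      exact Fin.ext (hinj i.val (by omega) j.val (by omega) hij)
    · intro i
      induction i using Fin.lastCases with
      | last =>
        rw [hlast]
        change 0 < w (g (k + 1)) (g 0)
        rw [h0, hn]; exact hba
      | cast i =>
        rw [hrot]
        change 0 < w (g i.val) (g (i.val + 1))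
        exact hpos i.val i.isLt
    · rw [Fin.sum_univ_castSucc]
      simp only [hrot, hlast]
      change x + w b a ≤ (∑ i : Fin (k + 1), w (g i.val) (g (i.val + 1))) + w (g (k + 1)) (g 0)
      rw [Fin.sum_univ_eq_sum_range (fun i => w (g i) (g (i + 1))) (k + 1), hsum, h0, hn]

/-- The maximum adjacency lemma. In a vertex set `Y` every vertex `u` has total weight at least
`θ` of arcs inside `Y` together with its exit weight `τ u`, and no nonempty subset of `Y` is closed
without exit. Then some path inside `Y` ends in a vertex with an exit and has weight at least `θ`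
together with the weight of this exit. -/
theorem ma (hw : ∀ u v, 0 ≤ w u v) (hdiag : ∀ v, w v v = 0) :
    ∀ (n : ℕ) (Y : Finset V) (τ : V → ℝ) (θ : ℝ), Y.card = n → Y.Nonempty →
      (∀ u, 0 ≤ τ u) → (∀ u ∈ Y, θ ≤ ∑ v ∈ Y, w u v + τ u) →
      (∀ S ⊆ Y, S.Nonempty → ∃ u ∈ S, 0 < τ u ∨ ∃ v ∈ Y \ S, 0 < w u v) →
      ∃ b u x, Pth w Y b u x ∧ 0 < τ u ∧ θ ≤ x + τ u := by
  intro n
  induction n with
  | zero =>
    intro Y τ θ hc hne
    rw [Finset.card_eq_zero] at hc
    subst hc
    exact absurd hne (by simp)
  | succ n ih =>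
    intro Y τ θ hc hne hτ hout hcut
    obtain ⟨r, hrY, hrmax⟩ := Finset.exists_max_image Y τ hne
    have hτr : 0 < τ r := by
      obtain ⟨u, hu, h | ⟨v, hv, -⟩⟩ := hcut Y (Finset.Subset.refl _) hne
      · exact lt_of_lt_of_le h (hrmax u hu)
      · simp at hv
    by_cases hY' : (Y.erase r).Nonempty
    · have hc' : (Y.erase r).card = n := by
        rw [Finset.card_erase_of_mem hrY, hc]; rfl
      obtain ⟨b, u, x, hp, hτu, hx⟩ := ih (Y.erase r) (fun u => τ u + w u r) θ hc' hY'
        (fun u => add_nonneg (hτ u) (hw u r))
        (by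
          intro u hu
          have h1 := hout u (Finset.mem_of_mem_erase hu)
          rw [← Finset.add_sum_erase Y (fun v => w u v) hrY] at h1
          linarith)
        (by
          intro S hS hSne
          have hSY : S ⊆ Y := hS.trans (Finset.erase_subset _ _)
          obtain ⟨u, hu, h | ⟨v, hv, h⟩⟩ := hcut S hSY hSne
          · exact ⟨u, hu, Or.inl (by have := hw u r; linarith)⟩
          · by_cases hvr : v = r
            · subst hvr
              exact ⟨u, hu, Or.inl (by have := hτ u; linarith)⟩
            · refine ⟨u, hu, Or.inr ⟨v, ?_, h⟩⟩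
              rw [Finset.mem_sdiff] at hv ⊢
              exact ⟨Finset.mem_erase.2 ⟨hvr, hv.1⟩, hv.2⟩)
      by_cases hur : 0 < w u r
      · have hr1 : Pth w ({r} : Finset V) r r 0 := Pth.nil _ _ (by simp)
        have h1 := hp.append hur hr1 (by simp)
        refine ⟨b, r, _, h1.mono ?_, hτr, ?_⟩
        · intro v hv
          rcases Finset.mem_union.1 hv with hv | hv
          · exact Finset.mem_of_mem_erase hv
          · rw [Finset.mem_singleton.1 hv]; exact hrY
        · have := hrmax u (Finset.mem_of_mem_erase hp.end_mem)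
          linarith
      · have hur0 : w u r = 0 := le_antisymm (not_lt.1 hur) (hw u r)
        rw [hur0] at hτu hx
        exact ⟨b, u, x, hp.mono (Finset.erase_subset _ _), by linarith, by linarith⟩
    · rw [Finset.not_nonempty_iff_eq_empty] at hY'
      refine ⟨r, r, 0, Pth.nil _ _ hrY, hτr, ?_⟩
      have h1 := hout r hrY
      rw [← Finset.add_sum_erase Y (fun v => w r v) hrY, hY', Finset.sum_empty, hdiag] at h1
      linarith

end Pool.Agent.H90
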