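import Pool.Agent.H90.Pth

/-!
# Good sets and rings of good sets

A set `Y` is *good* if it is strongly connected and every vertex `p` outside `Y` which has an arc
to `Y` can reach every vertex `q` of `Y` by a path inside `Y` (after its first arc) whose weight is
at least the total weight of the arcs from `p` to `Y`.
-/

set_option autoImplicit false

namespace Pool.Agent.H90

variable {V : Type} [DecidableEq V]

/-- Good sets. -/
structure Good (w : V → V → ℝ) (U Y : Finset V) : Prop where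
  ne : Y.Nonempty
  sub : Y ⊆ U
  cut : ∀ S ⊆ Y, S.Nonempty → S ≠ Y → ∃ u ∈ S, ∃ v ∈ Y \ S, 0 < w u v
  through : ∀ p ∈ U, p ∉ Y → 0 < ∑ z ∈ Y, w p z → ∀ q ∈ Y,
    ∃ z ∈ Y, 0 < w p z ∧ ∃ x, Pth w Y z q x ∧ ∑ z ∈ Y, w p z ≤ w p z + x

theorem good_singleton (w : V → V → ℝ) (U : Finset V) (a : V) (ha : a ∈ U) : Good w U {a} := by
  refine ⟨by simp, by simpa using ha, ?_, ?_⟩
  · intro S hS hne hSY
    exfalso
    apply hSY
    rcases Finset.subset_singleton_iff.1 hS with h | h
    · rw [h] at hne; exact absurd hne (by simp)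
    · exact h
  · intro p hpU hp hpos q hq
    rw [Finset.mem_singleton] at hq
    subst hq
    rw [Finset.sum_singleton] at hpos
    refine ⟨q, by simp, hpos, 0, Pth.nil _ _ (by simp), ?_⟩
    rw [Finset.sum_singleton]; simp

/-- In a finite nonempty type, every self-map has a cycle; here it is traversed backwards. -/
theorem exists_cycle_seq {ι : Type} [Finite ι] [Nonempty ι] (f : ι → ι) :
    ∃ (N : ℕ) (Z : ℕ → ι), 0 < N ∧ (∀ k, f (Z (k + 1)) = Z k) ∧ (∀ k, Z (k + N) = Z k) ∧
      (∀ k d, 0 < d → d < N → Z (k + d) ≠ Z k) := by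
  classical
  have hex : ∃ N : ℕ, 0 < N ∧ ∃ y, f^[N] y = y := by
    obtain ⟨x0⟩ := ‹Nonempty ι›
    obtain ⟨a, b, hab, hne⟩ : ∃ a b : ℕ, a < b ∧ f^[a] x0 = f^[b] x0 := by
      obtain ⟨a, b, hab, h⟩ := Finite.exists_ne_map_eq_of_infinite (fun n : ℕ => f^[n] x0)
      rcases Nat.lt_or_gt_of_ne hab with h1 | h1
      · exact ⟨a, b, h1, h⟩
      · exact ⟨b, a, h1, h.symm⟩
    refine ⟨b - a, by omega, f^[a] x0, ?_⟩
    rw [← Function.iterate_add_apply, show b - a + a = b by omega]
    exact hne.symm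
  obtain ⟨hN, y, hy⟩ := Nat.find_spec hex
  have hmin := fun d (hd : d < Nat.find hex) => Nat.find_min hex hd
  generalize Nat.find hex = N at hN hy hmin
  have hper : ∀ m, f^[m * N] y = y := by
    intro m
    induction m with
    | zero => simp
    | succ m ih => rw [Nat.succ_mul, Function.iterate_add_apply, hy, ih]
  have hZ1 : ∀ k, f (f^[(N - 1) * (k + 1)] y) = f^[(N - 1) * k] y := by
    intro k
    have h1 : f (f^[(N - 1) * (k + 1)] y) = f^[(N - 1) * (k + 1) + 1] y :=
      (Function.iterate_succ_apply' f _ y).symm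
    have h2 : (N - 1) * (k + 1) + 1 = (N - 1) * k + N := by
      rw [Nat.mul_succ]; omega
    rw [h1, h2, Function.iterate_add_apply, hy]
  refine ⟨N, fun k => f^[(N - 1) * k] y, hN, hZ1, ?_, ?_⟩
  · intro k
    change f^[(N - 1) * (k + N)] y = f^[(N - 1) * k] y
    rw [Nat.mul_add, Function.iterate_add_apply, hper]
  · intro k d hd0 hdN heq
    apply hmin d hdN
    refine ⟨hd0, f^[(N - 1) * k] y, ?_⟩
    have h1 : ∀ d, f^[d] (f^[(N - 1) * (k + d)] y) = f^[(N - 1) * k] y := by
      intro d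
      induction d with
      | zero => simp
      | succ d ih =>
        rw [Function.iterate_succ_apply, ← add_assoc, hZ1, ih]
    have h2 := h1 d
    have heq' : f^[(N - 1) * (k + d)] y = f^[(N - 1) * k] y := heq
    rw [heq'] at h2
    exact h2

/-- A ring of good sets: `P 0, P 1, …` is periodic with period `N ≥ 2`, the sets of one period are
disjoint, and for every `k` the vertex `l (k + 1)` of `P k` is a vertex outside `P (k + 1)` with
the largest total weight `e (k + 1)` of arcs to `P (k + 1)`. -/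
structure IsRing (w : V → V → ℝ) (U : Finset V) (N : ℕ) (P : ℕ → Finset V) (l : ℕ → V)
    (e : ℕ → ℝ) : Prop where
  two : 2 ≤ N
  per : ∀ k, P (k + N) = P k
  perl : ∀ k, l (k + N) = l k
  disj : ∀ k d, 0 < d → d < N → Disjoint (P (k + d)) (P k)
  good : ∀ k, Good w U (P k)
  he : ∀ k, e k = ∑ z ∈ P k, w (l k) z
  pos : ∀ k, 0 < e k
  mem : ∀ k, l (k + 1) ∈ P k
  max : ∀ k, ∀ p ∈ U, p ∉ P k → ∑ z ∈ P k, w p z ≤ e k

/-- The union of `P a, …, P (a + m)`. -/
def win (P : ℕ → Finset V) (a m : ℕ) : Finset V :=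
  (Finset.range (m + 1)).biUnion (fun t => P (a + t))

theorem mem_win {P : ℕ → Finset V} {a m : ℕ} {v : V} :
    v ∈ win P a m ↔ ∃ t, t ≤ m ∧ v ∈ P (a + t) := by
  simp [win, Finset.mem_biUnion]

theorem win_zero (P : ℕ → Finset V) (a : ℕ) : win P a 0 = P a := by
  ext v; simp [mem_win]

theorem win_succ (P : ℕ → Finset V) (a m : ℕ) :
    win P a (m + 1) = win P a m ∪ P (a + (m + 1)) := by
  ext v
  simp only [mem_win, Finset.mem_union]
  constructor
  · rintro ⟨t, ht, h⟩
    rcases Nat.lt_or_ge m t with h1 | h1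
    · right; rw [show m + 1 = t by omega]; exact h
    · left; exact ⟨t, h1, h⟩
  · rintro (⟨t, ht, h⟩ | h)
    · exact ⟨t, by omega, h⟩
    · exact ⟨m + 1, le_refl _, h⟩

namespace IsRing

variable {w : V → V → ℝ} {U : Finset V} {N : ℕ} {P : ℕ → Finset V} {l : ℕ → V} {e : ℕ → ℝ}

theorem disj' (h : IsRing w U N P l e) {i j : ℕ} (hij : i < j) (hj : j < i + N) :
    Disjoint (P i) (P j) := by
  have := h.disj i (j - i) (by omega) (by omega)
  rw [show i + (j - i) = j by omega] at this
  exact this.symm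

theorem pere (h : IsRing w U N P l e) (k : ℕ) : e (k + N) = e k := by
  rw [h.he, h.he, h.per, h.perl]

theorem l_mem (h : IsRing w U N P l e) (k : ℕ) : l (k + 1) ∈ U := (h.good k).sub (h.mem k)

theorem l_notMem (h : IsRing w U N P l e) (k : ℕ) : l (k + 1) ∉ P (k + 1) := by
  intro h1
  have h2 := h.two
  exact Finset.disjoint_left.1 (h.disj' (show k < k + 1 by omega) (by omega)) (h.mem k) h1

theorem win_disj (h : IsRing w U N P l e) {a m : ℕ} (hm : m + 1 < N) :
    Disjoint (win P a m) (P (a + (m + 1))) := by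
  rw [Finset.disjoint_left]
  intro v hv hv'
  obtain ⟨t, ht, hvt⟩ := mem_win.1 hv
  exact Finset.disjoint_left.1 (h.disj' (show a + t < a + (m + 1) by omega) (by omega)) hvt hv'

/-- Path through consecutive sets, from a vertex with an arc to the first of them. -/
theorem chain (h : IsRing w U N P l e) (a : ℕ) (u : V) (huU : u ∈ U) (hu : u ∉ P a)
    (hpos : 0 < ∑ z ∈ P a, w u z) (m : ℕ) (hm : m < N) :
    ∀ q ∈ P (a + m), ∃ z, 0 < w u z ∧ ∃ x, Pth w (win P a m) z q x ∧
      ∑ z ∈ P a, w u z + ∑ t ∈ Finset.range m, e (a + (t + 1)) ≤ w u z + x := by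
  induction m with
  | zero =>
    intro q hq
    obtain ⟨z, hz, hz0, x, hx, hle⟩ := (h.good a).through u huU hu hpos q hq
    refine ⟨z, hz0, x, ?_, by simpa using hle⟩
    rw [win_zero]; exact hx
  | succ m ih =>
    intro q hq
    obtain ⟨z, hz0, x, hx, hle⟩ := ih (by omega) (l (a + (m + 1))) (h.mem (a + m))
    have hl : l (a + (m + 1)) ∉ P (a + (m + 1)) := h.l_notMem (a + m)
    have hpos' : 0 < ∑ z ∈ P (a + (m + 1)), w (l (a + (m + 1))) z := by
      rw [← h.he]; exact h.pos _
    obtain ⟨z', hz', hz'0, x', hx', hle'⟩ :=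
      (h.good (a + (m + 1))).through (l (a + (m + 1))) (h.l_mem (a + m)) hl hpos' q hq
    refine ⟨z, hz0, x + (w (l (a + (m + 1))) z' + x'), ?_, ?_⟩
    · rw [win_succ]
      exact hx.append hz'0 hx' (h.win_disj hm)
    · rw [Finset.sum_range_succ]
      rw [← h.he] at hle'
      linarith

/-- Path through consecutive sets, from a vertex with an arc to some of them. -/
theorem sweep (h : IsRing w U N P l e) (hw : ∀ u v, 0 ≤ w u v) (a : ℕ) (u : V) (huU : u ∈ U)
    (m : ℕ) (hm : m < N) (hu : ∀ t ≤ m, u ∉ P (a + t))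
    (hpos : 0 < ∑ t ∈ Finset.range (m + 1), ∑ z ∈ P (a + t), w u z) :
    ∀ q ∈ P (a + m), ∃ z, 0 < w u z ∧ ∃ x, Pth w (win P a m) z q x ∧
      ∑ t ∈ Finset.range (m + 1), ∑ z ∈ P (a + t), w u z ≤ w u z + x := by
  induction m with
  | zero =>
    intro q hq
    have h0 : ∑ t ∈ Finset.range (0 + 1), ∑ z ∈ P (a + t), w u z = ∑ z ∈ P (a + 0), w u z := by
      simp
    rw [h0] at hpos ⊢
    obtain ⟨z, hz, hz0, x, hx, hle⟩ := (h.good (a + 0)).through u huU (hu 0 (le_refl _)) hpos q hq
    refine ⟨z, hz0, x, ?_, hle⟩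
    rw [win_zero]; exact hx
  | succ m ih =>
    intro q hq
    rw [Finset.sum_range_succ] at hpos ⊢
    have hul := h.max (a + (m + 1)) u huU (hu (m + 1) (le_refl _))
    by_cases hc : 0 < ∑ t ∈ Finset.range (m + 1), ∑ z ∈ P (a + t), w u z
    · obtain ⟨z, hz0, x, hx, hle⟩ := ih (by omega) (fun t ht => hu t (by omega)) hc
        (l (a + (m + 1))) (h.mem (a + m))
      have hl : l (a + (m + 1)) ∉ P (a + (m + 1)) := h.l_notMem (a + m)
      have hpos' : 0 < ∑ z ∈ P (a + (m + 1)), w (l (a + (m + 1))) z := by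
        rw [← h.he]; exact h.pos _
      obtain ⟨z', hz', hz'0, x', hx', hle'⟩ :=
        (h.good (a + (m + 1))).through (l (a + (m + 1))) (h.l_mem (a + m)) hl hpos' q hq
      refine ⟨z, hz0, x + (w (l (a + (m + 1))) z' + x'), ?_, ?_⟩
      · rw [win_succ]
        exact hx.append hz'0 hx' (h.win_disj hm)
      · rw [← h.he] at hle'
        linarith
    · have hc0 : ∑ t ∈ Finset.range (m + 1), ∑ z ∈ P (a + t), w u z = 0 :=
        le_antisymm (not_lt.1 hc)
          (Finset.sum_nonneg fun t _ => Finset.sum_nonneg fun z _ => hw u z)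
      rw [hc0] at hpos ⊢
      rw [zero_add] at hpos ⊢
      obtain ⟨z, hz, hz0, x, hx, hle⟩ :=
        (h.good (a + (m + 1))).through u huU (hu (m + 1) (le_refl _)) hpos q hq
      refine ⟨z, hz0, x, hx.mono ?_, hle⟩
      rw [win_succ]
      exact Finset.subset_union_right

theorem per_mul (h : IsRing w U N P l e) (k i : ℕ) : P (k + i * N) = P k := by
  induction i with
  | zero => simp
  | succ i ih => rw [Nat.succ_mul, ← add_assoc, h.per, ih]

/-- Every set of the ring occurs in every window of length `N`. -/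
theorem exists_shift (h : IsRing w U N P l e) (t a : ℕ) : ∃ s, s < N ∧ P (a + s) = P t := by
  have hN := h.two
  refine ⟨(t + a * (N - 1)) % N, Nat.mod_lt _ (by omega), ?_⟩
  set s := (t + a * (N - 1)) % N with hs
  have h1 : (t + a * (N - 1)) = s + N * ((t + a * (N - 1)) / N) := by
    rw [hs]; exact (Nat.mod_add_div _ _).symm
  have h2 : t + a * N = (a + s) + ((t + a * (N - 1)) / N) * N := by
    have h3 : a * N = a * (N - 1) + a := by
      rw [← Nat.mul_succ]; congr 1; omega
    rw [h3, Nat.mul_comm ((t + a * (N - 1)) / N) N]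
    omega
  have h4 := h.per_mul t a
  rw [h2, h.per_mul] at h4
  exact h4

theorem mem_win_full (h : IsRing w U N P l e) (a : ℕ) (v : V) :
    v ∈ win P a (N - 1) ↔ ∃ t, v ∈ P t := by
  have hN := h.two
  constructor
  · intro hv
    obtain ⟨t, _, ht⟩ := mem_win.1 hv
    exact ⟨_, ht⟩
  · rintro ⟨t, ht⟩
    obtain ⟨s, hs, hsP⟩ := h.exists_shift t a
    exact mem_win.2 ⟨s, by omega, by rw [hsP]; exact ht⟩

theorem win_full (h : IsRing w U N P l e) (a : ℕ) : win P a (N - 1) = win P 0 (N - 1) := by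
  ext v; rw [h.mem_win_full, h.mem_win_full]

theorem sum_win (h : IsRing w U N P l e) (g : V → ℝ) (a m : ℕ) (hm : m < N) :
    ∑ v ∈ win P a m, g v = ∑ t ∈ Finset.range (m + 1), ∑ v ∈ P (a + t), g v := by
  unfold win
  rw [Finset.sum_biUnion]
  intro i hi j hj hij
  have hi' : i < m + 1 := Finset.mem_range.1 hi
  have hj' : j < m + 1 := Finset.mem_range.1 hj
  rcases Nat.lt_or_gt_of_ne hij with h1 | h1
  · exact h.disj' (show a + i < a + j by omega) (by omega)
  · exact (h.disj' (show a + j < a + i by omega) (by omega)).symm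

/-- The union of a ring of good sets is good. -/
theorem good_union (h : IsRing w U N P l e) (hw : ∀ u v, 0 ≤ w u v) :
    Good w U (win P 0 (N - 1)) := by
  have hN := h.two
  refine ⟨?_, ?_, ?_, ?_⟩
  · obtain ⟨v, hv⟩ := (h.good 0).ne
    exact ⟨v, (h.mem_win_full 0 v).2 ⟨0, hv⟩⟩
  · intro v hv
    obtain ⟨t, ht⟩ := (h.mem_win_full 0 v).1 hv
    exact (h.good t).sub ht
  · -- every proper nonempty subset has an arc leaving it
    intro S hS hne hSY
    by_contra hcon
    push Not at hcon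
    apply hSY
    refine Finset.Subset.antisymm hS ?_
    -- if `S` meets `P k`, it contains `P k`
    have hfull : ∀ k, (∃ v ∈ S, v ∈ P k) → P k ⊆ S := by
      rintro k ⟨v, hvS, hvP⟩
      by_contra hnot
      obtain ⟨a, ha, b, hb, hab⟩ := (h.good k).cut (S ∩ P k) Finset.inter_subset_right
        ⟨v, Finset.mem_inter.2 ⟨hvS, hvP⟩⟩ (fun heq => hnot (by
          intro z hz
          have hz' : z ∈ S ∩ P k := by rw [heq]; exact hz
          exact (Finset.mem_inter.1 hz').1))
      have hb' := Finset.mem_sdiff.1 hb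
      have := hcon a (Finset.mem_inter.1 ha).1 b (Finset.mem_sdiff.2
        ⟨(h.mem_win_full 0 b).2 ⟨k, hb'.1⟩, fun hbS => hb'.2 (Finset.mem_inter.2 ⟨hbS, hb'.1⟩)⟩)
      linarith
    -- the meeting index moves on by one
    have hstep : ∀ k, P k ⊆ S → P (k + 1) ⊆ S := by
      intro k hk
      apply hfull
      have hl : l (k + 1) ∈ S := hk (h.mem k)
      have hpos := h.pos (k + 1)
      rw [h.he] at hpos
      obtain ⟨z, hz, hz0⟩ := Finset.exists_lt_of_sum_lt (s := P (k + 1)) (f := fun _ => (0 : ℝ))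
        (g := fun z => w (l (k + 1)) z) (by simpa using hpos)
      by_contra hcon'
      push Not at hcon'
      have hzS : z ∉ S := fun hzS => hcon' z hzS hz
      have := hcon _ hl z (Finset.mem_sdiff.2 ⟨(h.mem_win_full 0 z).2 ⟨_, hz⟩, hzS⟩)
      linarith
    obtain ⟨v, hv⟩ := hne
    obtain ⟨t, ht⟩ := (h.mem_win_full 0 v).1 (hS hv)
    have h0 : P t ⊆ S := hfull t ⟨v, hv, ht⟩
    have hall : ∀ s, P (t + s) ⊆ S := by
      intro s
      induction s with
      | zero => exact h0
      | succ s ih => exact hstep _ ih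
    intro z hz
    obtain ⟨t', ht'⟩ := (h.mem_win_full 0 z).1 hz
    obtain ⟨s, hs, hsP⟩ := h.exists_shift t' t
    exact hall s (by rw [hsP]; exact ht')
  · intro p hpU hp hpos q hq
    obtain ⟨t, ht⟩ := (h.mem_win_full 0 q).1 hq
    have hp' : ∀ k, p ∉ P k := fun k hk => hp ((h.mem_win_full 0 p).2 ⟨k, hk⟩)
    have hq' : q ∈ P ((t + 1) + (N - 1)) := by
      rw [show (t + 1) + (N - 1) = t + N by omega, h.per]; exact ht
    have hsum : ∑ z ∈ win P 0 (N - 1), w p z
        = ∑ s ∈ Finset.range ((N - 1) + 1), ∑ z ∈ P ((t + 1) + s), w p z := by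
      rw [← h.sum_win (fun z => w p z) (t + 1) (N - 1) (by omega), h.win_full (t + 1)]
    rw [hsum] at hpos ⊢
    obtain ⟨z, hz0, x, hx, hle⟩ := h.sweep hw (t + 1) p hpU (N - 1) (by omega)
      (fun s _ => hp' _) hpos q hq'
    rw [h.win_full (t + 1)] at hx
    exact ⟨z, hx.start_mem, hz0, x, hx, hle⟩

end IsRing

end Pool.Agent.H90
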