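import Pool.Agent.H90.Ring

/-!
# Heavy cycles in weighted semicomplete digraphs
-/

set_option autoImplicit false

namespace Pool.Agent.H90

variable {V : Type} [DecidableEq V]

/-- A partition of `U` into good sets. -/
structure GoodPart (w : V → V → ℝ) (U : Finset V) (p : Finset (Finset V)) : Prop where
  good : ∀ Y ∈ p, Good w U Y
  disj : ∀ Y ∈ p, ∀ Z ∈ p, Y ≠ Z → Disjoint Y Z
  cover : ∀ v ∈ U, ∃ Y ∈ p, v ∈ Y
  two : 2 ≤ p.card

theorem goodPart_singletons (w : V → V → ℝ) (U : Finset V) (hU : 2 ≤ U.card) :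
    GoodPart w U (U.image (fun a => ({a} : Finset V))) := by
  refine ⟨?_, ?_, ?_, ?_⟩
  · intro Y hY
    obtain ⟨a, ha, rfl⟩ := Finset.mem_image.1 hY
    exact good_singleton w U a ha
  · intro Y hY Z hZ hne
    obtain ⟨a, ha, rfl⟩ := Finset.mem_image.1 hY
    obtain ⟨b, hb, rfl⟩ := Finset.mem_image.1 hZ
    rw [Finset.disjoint_singleton]
    rintro rfl
    exact hne rfl
  · intro v hv
    exact ⟨{v}, Finset.mem_image.2 ⟨v, hv, rfl⟩, by simp⟩
  · rw [Finset.card_image_of_injective _ Finset.singleton_injective]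
    exact hU

/-- In a strongly connected vertex set with at least two vertices, a ring of good sets covers
everything. -/
theorem exists_ring {w : V → V → ℝ} (hw : ∀ u v, 0 ≤ w u v) (U : Finset V) (hU : 2 ≤ U.card)
    (hcut : ∀ S ⊆ U, S.Nonempty → S ≠ U → ∃ u ∈ S, ∃ v ∈ U \ S, 0 < w u v) :
    ∃ N P l e, IsRing w U N P l e ∧ win P 0 (N - 1) = U := by
  classical
  have hex : ∃ n, ∃ p, GoodPart w U p ∧ p.card = n := ⟨_, _, goodPart_singletons w U hU, rfl⟩
  obtain ⟨p, hp, hpc⟩ := Nat.find_spec hex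
  have hmin : ∀ p', GoodPart w U p' → p.card ≤ p'.card := by
    intro p' hp'
    by_contra hlt
    rw [hpc] at hlt
    exact Nat.find_min hex (not_le.1 hlt) ⟨p', hp', rfl⟩
  clear hpc hex
  -- no part is the whole of `U`
  have hneU : ∀ Y ∈ p, Y ≠ U := by
    intro Y hY hYU
    have h2 := hp.two
    obtain ⟨Z, hZ, hZY⟩ := Finset.exists_mem_ne (show 1 < p.card by omega) Y
    obtain ⟨z, hz⟩ := (hp.good Z hZ).ne
    have hzU := (hp.good Z hZ).sub hz
    rw [← hYU] at hzU
    exact Finset.disjoint_left.1 (hp.disj Z hZ Y hY hZY) hz hzU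
  -- the heaviest outside vertex
  have hL : ∀ Y : {Y // Y ∈ p}, ∃ L, (L ∈ U ∧ L ∉ Y.1) ∧ 0 < ∑ z ∈ Y.1, w L z ∧
      ∀ q ∈ U, q ∉ Y.1 → ∑ z ∈ Y.1, w q z ≤ ∑ z ∈ Y.1, w L z := by
    rintro ⟨Y, hY⟩
    have hgY := hp.good Y hY
    have hne : (U \ Y).Nonempty := by
      rw [Finset.sdiff_nonempty]
      intro hsub
      exact hneU Y hY (Finset.Subset.antisymm hgY.sub hsub)
    obtain ⟨L, hLm, hLmax⟩ := Finset.exists_max_image (U \ Y) (fun q => ∑ z ∈ Y, w q z) hne
    refine ⟨L, Finset.mem_sdiff.1 hLm, ?_, fun q hqU hqY =>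
      hLmax q (Finset.mem_sdiff.2 ⟨hqU, hqY⟩)⟩
    obtain ⟨u, hu, v, hv, huv⟩ := hcut (U \ Y) Finset.sdiff_subset hne (by
      intro h
      obtain ⟨y, hy⟩ := hgY.ne
      have := hgY.sub hy
      rw [← h] at this
      exact (Finset.mem_sdiff.1 this).2 hy)
    have hvY : v ∈ Y := by
      rw [Finset.mem_sdiff, Finset.mem_sdiff] at hv
      by_contra hvY
      exact hv.2 ⟨hv.1, hvY⟩
    refine lt_of_lt_of_le ?_ (hLmax u hu)
    exact Finset.sum_pos' (fun z _ => hw u z) ⟨v, hvY, huv⟩
  choose L hLU hLpos hLmax using hL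
  have hpred : ∀ Y : {Y // Y ∈ p}, ∃ Z : {Y // Y ∈ p}, L Y ∈ Z.1 := by
    intro Y
    obtain ⟨Z, hZ, hLZ⟩ := hp.cover (L Y) (hLU Y).1
    exact ⟨⟨Z, hZ⟩, hLZ⟩
  choose f hf using hpred
  have : Nonempty {Y // Y ∈ p} := by
    have h2 := hp.two
    obtain ⟨Y, hY⟩ := Finset.card_pos.1 (show 0 < p.card by omega)
    exact ⟨⟨Y, hY⟩⟩
  obtain ⟨N, Z, hN, hZ1, hZper, hZne⟩ := exists_cycle_seq f
  have hfne : ∀ Y, f Y ≠ Y := by
    intro Y h
    have := hf Y
    rw [h] at this
    exact (hLU Y).2 this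
  have hN2 : 2 ≤ N := by
    by_contra hlt
    have hN1 : N = 1 := by omega
    subst hN1
    have h1 := hZ1 0
    rw [hZper 0] at h1
    exact hfne _ h1
  have hring : IsRing w U N (fun k => (Z k).1) (fun k => L (Z k))
      (fun k => ∑ z ∈ (Z k).1, w (L (Z k)) z) := by
    refine ⟨hN2, ?_, ?_, ?_, ?_, fun k => rfl, ?_, ?_, ?_⟩
    · intro k; simp only [hZper]
    · intro k; simp only [hZper]
    · intro k d hd0 hdN
      exact hp.disj _ (Z (k + d)).2 _ (Z k).2 (fun h => hZne k d hd0 hdN (Subtype.ext h))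
    · intro k; exact hp.good _ (Z k).2
    · intro k; exact hLpos (Z k)
    · intro k
      have := hf (Z (k + 1))
      rw [hZ1] at this
      exact this
    · intro k q hqU hqP
      exact hLmax (Z k) q hqU hqP
  refine ⟨N, _, _, _, hring, ?_⟩
  · by_contra hKU
    set K := win (fun k => (Z k).1) 0 (N - 1) with hK
    have hgK : Good w U K := hring.good_union hw
    have hmemK : ∀ v, v ∈ K ↔ ∃ t, v ∈ (Z t).1 := fun v => hring.mem_win_full 0 v
    -- every part is either one of the ring or disjoint from `K`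
    have hdich : ∀ Y ∈ p, (∃ t, (Z t).1 = Y) ∨ Disjoint Y K := by
      intro Y hY
      by_cases ht : ∃ t, (Z t).1 = Y
      · exact Or.inl ht
      · right
        rw [Finset.disjoint_left]
        intro v hv hvK
        obtain ⟨t, hvt⟩ := (hmemK v).1 hvK
        push Not at ht
        exact Finset.disjoint_left.1 (hp.disj _ (Z t).2 Y hY (ht t)) hvt hv
    have hKnot : K ∉ p.filter (fun Y => Disjoint Y K) := by
      intro h
      have := (Finset.mem_filter.1 h).2
      rw [disjoint_self] at this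
      obtain ⟨v, hv⟩ := hgK.ne
      rw [this] at hv
      simp at hv
    have hp' : GoodPart w U (insert K (p.filter (fun Y => Disjoint Y K))) := by
      refine ⟨?_, ?_, ?_, ?_⟩
      · intro Y hY
        rcases Finset.mem_insert.1 hY with rfl | hY
        · exact hgK
        · exact hp.good _ (Finset.mem_filter.1 hY).1
      · intro Y hY Y' hY' hne
        rcases Finset.mem_insert.1 hY with h1 | h1
        · rcases Finset.mem_insert.1 hY' with h2 | h2
          · exact absurd (h1.trans h2.symm) hne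
          · rw [h1]; exact (Finset.mem_filter.1 h2).2.symm
        · rcases Finset.mem_insert.1 hY' with h2 | h2
          · rw [h2]; exact (Finset.mem_filter.1 h1).2
          · exact hp.disj _ (Finset.mem_filter.1 h1).1 _ (Finset.mem_filter.1 h2).1 hne
      · intro v hv
        obtain ⟨Y, hY, hvY⟩ := hp.cover v hv
        rcases hdich Y hY with ⟨t, ht⟩ | hd
        · exact ⟨K, Finset.mem_insert_self _ _, (hmemK v).2 ⟨t, by rw [ht]; exact hvY⟩⟩
        · exact ⟨Y, Finset.mem_insert_of_mem (Finset.mem_filter.2 ⟨hY, hd⟩), hvY⟩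
      · rw [Finset.card_insert_of_notMem hKnot]
        have : (p.filter (fun Y => Disjoint Y K)).Nonempty := by
          have h1 : (U \ K).Nonempty := by
            rw [Finset.sdiff_nonempty]
            intro hsub
            exact hKU (Finset.Subset.antisymm hgK.sub hsub)
          obtain ⟨v, hv⟩ := h1
          rw [Finset.mem_sdiff] at hv
          obtain ⟨Y, hY, hvY⟩ := hp.cover v hv.1
          rcases hdich Y hY with ⟨t, ht⟩ | hd
          · exact absurd ((hmemK v).2 ⟨t, by rw [ht]; exact hvY⟩) hv.2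
          · exact ⟨Y, Finset.mem_filter.2 ⟨hY, hd⟩⟩
        have := Finset.card_pos.2 this
        omega
    have h1 := hmin _ hp'
    rw [Finset.card_insert_of_notMem hKnot] at h1
    -- two parts are lost
    have h01 : (Z 0).1 ≠ (Z 1).1 := by
      intro h
      exact hZne 0 1 one_pos (by omega) (by rw [zero_add]; exact (Subtype.ext h).symm)
    have hnd : ∀ t, (Z t).1 ∉ p.filter (fun Y => Disjoint Y K) := by
      intro t h
      have h2 := (Finset.mem_filter.1 h).2
      obtain ⟨v, hv⟩ := (hp.good _ (Z t).2).ne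
      exact Finset.disjoint_left.1 h2 hv ((hmemK v).2 ⟨t, hv⟩)
    have hsub : p.filter (fun Y => Disjoint Y K) ⊆ (p.erase (Z 0).1).erase (Z 1).1 := by
      intro Y hY
      refine Finset.mem_erase.2 ⟨?_, Finset.mem_erase.2 ⟨?_, (Finset.mem_filter.1 hY).1⟩⟩
      · rintro rfl; exact hnd 1 hY
      · rintro rfl; exact hnd 0 hY
    have h3 := Finset.card_le_card hsub
    rw [Finset.card_erase_of_mem (Finset.mem_erase.2 ⟨h01.symm, (Z 1).2⟩),
      Finset.card_erase_of_mem (Z 0).2] at h3
    have := hp.two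
    omega

namespace IsRing

variable {w : V → V → ℝ} {U : Finset V} {N : ℕ} {P : ℕ → Finset V} {l : ℕ → V} {e : ℕ → ℝ}

theorem sum_e (h : IsRing w U N P l e) (a : ℕ) :
    ∑ s ∈ Finset.range N, e (a + s) = ∑ s ∈ Finset.range N, e s := by
  induction a with
  | zero => simp
  | succ a ih =>
    rw [← ih]
    have hN := h.two
    obtain ⟨M, rfl⟩ : ∃ M, N = M + 1 := ⟨N - 1, by omega⟩
    rw [Finset.sum_range_succ, Finset.sum_range_succ']
    have h1 : e (a + 1 + M) = e a := by
      rw [show a + 1 + M = a + (M + 1) by omega]; exact h.pere a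
    rw [h1, add_zero]
    congr 1
    refine Finset.sum_congr rfl fun s _ => ?_
    rw [show a + 1 + s = a + (s + 1) by omega]

/-- A ring whose heaviest in-links have total weight `E` gives a cycle of weight at least `E`. -/
theorem heavy (h : IsRing w U N P l e) (hdiag : ∀ v, w v v = 0) :
    ∃ (k : ℕ) (f : Fin (k + 2) → V), Function.Injective f ∧
      (∀ i, 0 < w (f i) (f (finRotate (k + 2) i))) ∧
      ∑ s ∈ Finset.range N, e s ≤ ∑ i, w (f i) (f (finRotate (k + 2) i)) := by
  have hN := h.two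
  have hl : l 1 ∈ P (1 + (N - 1)) := by
    rw [show 1 + (N - 1) = 0 + N by omega, h.per]; exact h.mem 0
  have hpos : 0 < ∑ z ∈ P 1, w (l 1) z := by rw [← h.he]; exact h.pos 1
  obtain ⟨z, hz0, x, hx, hle⟩ := h.chain 1 (l 1) (h.l_mem 0) (h.l_notMem 0) hpos (N - 1)
    (by omega) (l 1) hl
  obtain ⟨k, f, hf1, hf2, hf3⟩ := hx.close hdiag hz0
  refine ⟨k, f, hf1, hf2, ?_⟩
  rw [← h.sum_e 1]
  obtain ⟨M, hM⟩ : ∃ M, N = M + 1 := ⟨N - 1, by omega⟩
  rw [← h.he, hM] at hle
  rw [hM, Finset.sum_range_succ']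
  simp only [Nat.add_sub_cancel, add_zero] at hle ⊢
  linarith

/-- The weight inside a set of the ring covering `U`. -/
theorem inside (h : IsRing w U N P l e) (hcov : win P 0 (N - 1) = U) (j : ℕ) (u : V)
    (hu : u ∈ P j) :
    ∑ v ∈ U, w u v + e j ≤ ∑ v ∈ P j, w u v + ∑ s ∈ Finset.range N, e s := by
  have hN := h.two
  have huU : u ∈ U := (h.good j).sub hu
  obtain ⟨M, hM⟩ : ∃ M, N = M + 1 := ⟨N - 1, by omega⟩
  have h1 : ∑ v ∈ U, w u v = ∑ t ∈ Finset.range (M + 1), ∑ v ∈ P (j + t), w u v := by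
    rw [← hcov, ← h.win_full j, h.sum_win (fun v => w u v) j (N - 1) (by omega), hM]
    simp
  have h2 : ∑ s ∈ Finset.range N, e s = ∑ t ∈ Finset.range (M + 1), e (j + t) := by
    rw [← h.sum_e j, hM]
  rw [h1, h2, Finset.sum_range_succ', Finset.sum_range_succ']
  have h3 : ∑ t ∈ Finset.range M, ∑ v ∈ P (j + (t + 1)), w u v
      ≤ ∑ t ∈ Finset.range M, e (j + (t + 1)) := by
    refine Finset.sum_le_sum fun t ht => ?_
    have ht' := Finset.mem_range.1 ht
    exact h.max _ u huU fun hmem => Finset.disjoint_left.1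
      (h.disj' (show j < j + (t + 1) by omega) (by omega)) hu hmem
  simp only [add_zero]
  linarith

/-- In each set of a ring covering `U` there is a vertex from which a path of weight at least `1`
leads to every vertex of the preceding set. -/
theorem exists_src (h : IsRing w U N P l e) (hw : ∀ u v, 0 ≤ w u v) (hdiag : ∀ v, w v v = 0)
    (hcov : win P 0 (N - 1) = U) (hout : ∀ u ∈ U, 1 ≤ ∑ v ∈ U, w u v) (j : ℕ) :
    ∃ b ∈ P j, ∀ q ∈ P (j + (N - 1)), ∃ S x, Pth w S b q x ∧ 1 ≤ x := by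
  have hN := h.two
  obtain ⟨M, hM⟩ : ∃ M, N = M + 2 := ⟨N - 2, by omega⟩
  have hsplit : ∀ u ∈ P j, ∑ v ∈ U, w u v
      = ∑ v ∈ P j, w u v + ∑ t ∈ Finset.range (M + 1), ∑ v ∈ P (j + 1 + t), w u v := by
    intro u hu
    rw [← hcov, ← h.win_full j, h.sum_win (fun v => w u v) j (N - 1) (by omega), hM,
      show M + 2 - 1 + 1 = (M + 1) + 1 by omega, Finset.sum_range_succ', add_comm]
    congr 1
    refine Finset.sum_congr rfl fun t _ => ?_
    rw [show j + (t + 1) = j + 1 + t by omega]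
  obtain ⟨b, u, x, hx, hτ, hle⟩ := ma hw hdiag (P j).card (P j)
    (fun u => ∑ t ∈ Finset.range (M + 1), ∑ v ∈ P (j + 1 + t), w u v) 1 rfl (h.good j).ne
    (fun u => Finset.sum_nonneg fun t _ => Finset.sum_nonneg fun v _ => hw u v)
    (by
      intro u hu
      rw [← hsplit u hu]
      exact hout u ((h.good j).sub hu))
    (by
      intro S hS hne
      by_cases hSP : S = P j
      · refine ⟨l (j + 1), by rw [hSP]; exact h.mem j, Or.inl ?_⟩
        refine Finset.sum_pos' (fun t _ => Finset.sum_nonneg fun v _ => hw _ v)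
          ⟨0, by simp, ?_⟩
        rw [add_zero, ← h.he]; exact h.pos _
      · obtain ⟨u, hu, v, hv, huv⟩ := (h.good j).cut S hS hne hSP
        exact ⟨u, hu, Or.inr ⟨v, hv, huv⟩⟩)
  refine ⟨b, hx.start_mem, fun q hq => ?_⟩
  have huP : u ∈ P j := hx.end_mem
  have hnot : ∀ t ≤ M, u ∉ P (j + 1 + t) := fun t ht hmem =>
    Finset.disjoint_left.1 (h.disj' (show j < j + 1 + t by omega) (by omega)) huP hmem
  have hq' : q ∈ P (j + 1 + M) := by
    rw [show j + 1 + M = j + (N - 1) by omega]; exact hq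
  obtain ⟨z, hz0, x', hx', hle'⟩ := h.sweep hw (j + 1) u ((h.good j).sub huP) M (by omega)
    hnot hτ q hq'
  have hd : Disjoint (P j) (win P (j + 1) M) := by
    rw [Finset.disjoint_left]
    intro v hv hv'
    obtain ⟨t, ht, hvt⟩ := mem_win.1 hv'
    exact Finset.disjoint_left.1 (h.disj' (show j < j + 1 + t by omega) (by omega)) hv hvt
  exact ⟨_, _, hx.append hz0 hx' hd, by linarith⟩

/-- The main step: a ring covering a semicomplete digraph gives a heavy cycle. -/
theorem cycle (h : IsRing w U N P l e) (hw : ∀ u v, 0 ≤ w u v) (hdiag : ∀ v, w v v = 0)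
    (hcov : win P 0 (N - 1) = U) (hout : ∀ u ∈ U, 1 ≤ ∑ v ∈ U, w u v)
    (hsemi : ∀ u ∈ U, ∀ v ∈ U, u ≠ v → 0 < w u v ∨ 0 < w v u) :
    ∃ (k : ℕ) (f : Fin (k + 2) → V), Function.Injective f ∧
      (∀ i, 0 < w (f i) (f (finRotate (k + 2) i))) ∧
      1 ≤ ∑ i, w (f i) (f (finRotate (k + 2) i)) := by
  have hN := h.two
  by_cases hE : 1 ≤ ∑ s ∈ Finset.range N, e s
  · obtain ⟨k, f, hf1, hf2, hf3⟩ := h.heavy hdiag
    exact ⟨k, f, hf1, hf2, hE.trans hf3⟩
  rw [not_le] at hE
  by_contra hno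
  have hno' : ∀ (S : Finset V) (a b : V) (x : ℝ), Pth w S a b x → 0 < w b a → 1 ≤ x + w b a →
      False := by
    intro S a b x hx hba hle
    obtain ⟨k, f, hf1, hf2, hf3⟩ := hx.close hdiag hba
    exact hno ⟨k, f, hf1, hf2, hle.trans hf3⟩
  have hb : ∀ j, ∃ b ∈ P j, ∀ q ∈ P (j + (N - 1)), 0 < w b q := by
    intro j
    obtain ⟨b, hbP, hb⟩ := h.exists_src hw hdiag hcov hout j
    refine ⟨b, hbP, fun q hq => ?_⟩
    obtain ⟨S, x, hx, hx1⟩ := hb q hq
    have hne : b ≠ q := by
      rintro rfl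
      exact Finset.disjoint_left.1 (h.disj' (show j < j + (N - 1) by omega) (by omega)) hbP hq
    rcases hsemi b ((h.good j).sub hbP) q ((h.good _).sub hq) hne with h1 | h1
    · exact h1
    · exact absurd (hno' S b q x hx h1 (by linarith)) id
  choose b hbP hb using hb
  -- long paths inside the sets
  have hs : ∀ j, ∃ s x, Pth w (P j) s (b j) x ∧ 1 + e j ≤ x + ∑ s ∈ Finset.range N, e s := by
    intro j
    have hej := h.pos j
    have hin : ∀ u ∈ P j, 1 + e j - ∑ s ∈ Finset.range N, e s ≤ ∑ v ∈ P j, w u v := by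
      intro u hu
      have h1 := h.inside hcov j u hu
      have h2 := hout u ((h.good j).sub hu)
      linarith
    have hne : ((P j).erase (b j)).Nonempty := by
      rw [Finset.nonempty_iff_ne_empty]
      intro hemp
      have h1 := hin (b j) (hbP j)
      rw [← Finset.add_sum_erase _ _ (hbP j), hemp, Finset.sum_empty, hdiag] at h1
      linarith
    obtain ⟨s, u, x, hx, hτ, hle⟩ := ma hw hdiag _ ((P j).erase (b j)) (fun u => w u (b j))
      (1 + e j - ∑ s ∈ Finset.range N, e s) rfl hne (fun u => hw u _)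
      (by
        intro u hu
        have h1 := hin u (Finset.mem_of_mem_erase hu)
        rw [← Finset.add_sum_erase _ _ (hbP j)] at h1
        linarith)
      (by
        intro S hS hSne
        have hSP : S ⊆ P j := hS.trans (Finset.erase_subset _ _)
        have hbS : b j ∉ S := fun hbS => Finset.notMem_erase _ _ (hS hbS)
        obtain ⟨u, hu, v, hv, huv⟩ := (h.good j).cut S hSP hSne
          (fun heq => hbS (by rw [heq]; exact hbP j))
        by_cases hvb : v = b j
        · subst hvb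
          exact ⟨u, hu, Or.inl huv⟩
        · refine ⟨u, hu, Or.inr ⟨v, ?_, huv⟩⟩
          rw [Finset.mem_sdiff] at hv ⊢
          exact ⟨Finset.mem_erase.2 ⟨hvb, hv.1⟩, hv.2⟩)
    have h1 : Pth w ({b j} : Finset V) (b j) (b j) 0 := Pth.nil _ _ (by simp)
    have h2 := hx.append hτ h1 (by simp)
    refine ⟨s, _, h2.mono ?_, ?_⟩
    · intro v hv
      rcases Finset.mem_union.1 hv with hv | hv
      · exact Finset.mem_of_mem_erase hv
      · rw [Finset.mem_singleton.1 hv]; exact hbP j
    · linarith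
  choose s x hsx hx using hs
  -- the reversed chain
  have hchain : ∀ m, m < N → ∃ y, Pth w (win P 1 m) (s (1 + m)) (b 1) y ∧
      ∑ t ∈ Finset.range (m + 1), (1 + e (1 + t) - ∑ s ∈ Finset.range N, e s) ≤ y := by
    intro m
    induction m with
    | zero =>
      intro _
      refine ⟨x 1, ?_, ?_⟩
      · rw [win_zero]; exact hsx 1
      · have := hx 1
        rw [Finset.sum_range_one]
        simp only [add_zero]
        linarith
    | succ m ih =>
      intro hm
      obtain ⟨y, hy, hle⟩ := ih (by omega)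
      have harc : 0 < w (b (1 + (m + 1))) (s (1 + m)) := by
        apply hb
        rw [show 1 + (m + 1) + (N - 1) = (1 + m) + N by omega, h.per]
        exact (hsx (1 + m)).start_mem
      have h1 := (hsx (1 + (m + 1))).append harc hy (h.win_disj hm).symm
      refine ⟨_, h1.mono ?_, ?_⟩
      · rw [win_succ, Finset.union_comm]
      · rw [Finset.sum_range_succ]
        have := hx (1 + (m + 1))
        linarith
  obtain ⟨y, hy, hle⟩ := hchain (N - 1) (by omega)
  have harc : 0 < w (b 1) (s (1 + (N - 1))) := hb 1 _ (hsx _).start_mem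
  refine hno' _ _ _ _ hy harc ?_
  rw [show N - 1 + 1 = N by omega, Finset.sum_sub_distrib, Finset.sum_add_distrib, h.sum_e 1] at hle
  simp only [Finset.sum_const, Finset.card_range, nsmul_eq_mul, mul_one] at hle
  have hN' : (1 : ℝ) ≤ (N : ℝ) - 1 := by
    have : (2 : ℝ) ≤ (N : ℝ) := by exact_mod_cast hN
    linarith
  nlinarith

end IsRing

/-- **Heavy cycles in semicomplete digraphs.** If any two distinct vertices are joined by an arc of
positive weight in at least one direction and every vertex has out-weight at least `1`, then some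
directed cycle has weight at least `1`. -/
theorem semicomplete {V : Type} [Fintype V] [Nonempty V] (w : V → V → ℝ)
    (hw : ∀ u v, 0 ≤ w u v) (hdiag : ∀ v, w v v = 0)
    (hsemi : ∀ u v, u ≠ v → 0 < w u v ∨ 0 < w v u) (hout : ∀ v, 1 ≤ ∑ u, w v u) :
    ∃ (k : ℕ) (f : Fin (k + 2) → V), Function.Injective f ∧
      (∀ i, 0 < w (f i) (f (finRotate (k + 2) i))) ∧
      1 ≤ ∑ i, w (f i) (f (finRotate (k + 2) i)) := by
  classical
  -- a minimal nonempty set closed under out-neighbours
  have hex : ∃ n, ∃ U : Finset V, U.Nonempty ∧ (∀ u ∈ U, ∀ v, 0 < w u v → v ∈ U) ∧ U.card = n :=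
    ⟨_, Finset.univ, Finset.univ_nonempty, fun _ _ v _ => Finset.mem_univ v, rfl⟩
  obtain ⟨U, hUne, hUcl, hUc⟩ := Nat.find_spec hex
  have hmin : ∀ S : Finset V, S.Nonempty → (∀ u ∈ S, ∀ v, 0 < w u v → v ∈ S) →
      U.card ≤ S.card := by
    intro S hS hScl
    by_contra hlt
    rw [hUc] at hlt
    exact Nat.find_min hex (not_le.1 hlt) ⟨S, hS, hScl, rfl⟩
  have hzero : ∀ u ∈ U, ∀ v, v ∉ U → w u v = 0 := by
    intro u hu v hv
    refine le_antisymm (not_lt.1 fun h => hv (hUcl u hu v h)) (hw u v)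
  have hcut : ∀ S ⊆ U, S.Nonempty → S ≠ U → ∃ u ∈ S, ∃ v ∈ U \ S, 0 < w u v := by
    intro S hS hne hSU
    by_contra hcon
    push Not at hcon
    have h1 := hmin S hne (by
      intro u hu v huv
      by_contra hvS
      have hvU : v ∈ U := hUcl u (hS hu) v huv
      have := hcon u hu v (Finset.mem_sdiff.2 ⟨hvU, hvS⟩)
      linarith)
    exact hSU (Finset.eq_of_subset_of_card_le hS h1)
  have hout' : ∀ u ∈ U, 1 ≤ ∑ v ∈ U, w u v := by
    intro u hu
    have h1 : ∑ v ∈ U, w u v = ∑ v, w u v :=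
      Finset.sum_subset (Finset.subset_univ U) fun v _ hv => hzero u hu v hv
    rw [h1]; exact hout u
  have hcard : 2 ≤ U.card := by
    by_contra hlt
    have h1 : U.card = 1 := by
      have := Finset.card_pos.2 hUne
      omega
    obtain ⟨a, ha⟩ := Finset.card_eq_one.1 h1
    have h2 := hout' a (by rw [ha]; simp)
    rw [ha, Finset.sum_singleton, hdiag] at h2
    linarith
  obtain ⟨N, P, l, e, hring, hcov⟩ := exists_ring hw U hcard hcut
  exact hring.cycle hw hdiag hcov hout' (fun u _ v _ huv => hsemi u v huv)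

end Pool.Agent.H90
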